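import Pool.Agent.H5.SY.Dbl
import Pool.Agent.H30.SY.Stm3

/-! # Project SY (helper30), piece DCS (helper40): doubled clusters give concentration -/

set_option autoImplicit false

open MeasureTheory ProbabilityTheory Finset Filter
open scoped Topology Pointwise

namespace Pool.Agent.H40.SY

open Q70.Fp Pool.Agent.H30.SY
open Pool.Agent.H5.SY (geo dbl_pow)

theorem chainE (A : ℕ → Set (Ed → ℝ)) (K : ℕ) :
    nu.real (A 0) ≤ ∑ k ∈ range K, nu.real (A k ∩ (A (k + 1))ᶜ) + nu.real (A K) := by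
  induction K with
  | zero => simp
  | succ K ih =>
    rw [Finset.sum_range_succ]
    have h1 : nu.real (A K) ≤ nu.real (A K ∩ (A (K + 1))ᶜ) + nu.real (A (K + 1)) := by
      refine (measureReal_mono ?_ (measure_ne_top nu _)).trans (measureReal_union_le _ _)
      intro w hw
      by_cases h : w ∈ A (K + 1)
      · exact Or.inr h
      · exact Or.inl ⟨hw, h⟩
    linarith

theorem oneside {μ : ℝ × ℝ → ℝ} (hμ : Shape μ) (A : ℕ → Set (Ed → ℝ)) {B ρ ε : ℝ} (hB : 0 ≤ B)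
    (h0 : 0 ≤ ρ) (h1 : ρ < 1) (hε : 0 < ε) (ha : ∀ k, nu.real (A k ∩ (A (k + 1))ᶜ) ≤ B * ρ ^ k)
    (v : ℤ × ℤ)
    (hlim : ∀ K, A K ⊆ {w | ε ≤ |TT (pw w) 0 (((2 ^ K : ℕ) : ℤ) • v) / ((2 ^ K : ℕ) : ℝ) - mz μ v|}) :
    nu.real (A 0) ≤ B * (1 - ρ)⁻¹ := by
  have hmain : ∀ K, nu.real (A 0) ≤ B * (1 - ρ)⁻¹ +
      nu.real {w | ε ≤ |TT (pw w) 0 (((2 ^ K : ℕ) : ℤ) • v) / ((2 ^ K : ℕ) : ℝ) - mz μ v|} := by
    intro K
    refine (chainE A K).trans (add_le_add ?_ (measureReal_mono (hlim K) (measure_ne_top nu _)))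
    calc ∑ k ∈ range K, nu.real (A k ∩ (A (k + 1))ᶜ) ≤ ∑ k ∈ range K, B * ρ ^ k :=
          Finset.sum_le_sum fun k _ => ha k
      _ = B * ∑ k ∈ range K, ρ ^ k := by rw [Finset.mul_sum]
      _ ≤ B * (1 - ρ)⁻¹ := mul_le_mul_of_nonneg_left (geo h0 h1 K) hB
  have hl : Tendsto (fun K : ℕ => B * (1 - ρ)⁻¹ +
      nu.real {w | ε ≤ |TT (pw w) 0 (((2 ^ K : ℕ) : ℤ) • v) / ((2 ^ K : ℕ) : ℝ) - mz μ v|}) atTop
      (𝓝 (B * (1 - ρ)⁻¹ + 0)) := by
    refine tendsto_const_nhds.add ?_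
    exact (prob_lim hμ v hε).comp (tendsto_pow_atTop_atTop_of_one_lt (r := 2) (by norm_num))
  rw [add_zero] at hl
  exact ge_of_tendsto' hl hmain

theorem stepb {s q C t0 : ℝ} (hs : 0 < s) (hq : 0 < q)
    (h : ∀ t, t0 ≤ t → nu.real {w : Ed → ℝ | DC (pw w) t (t ^ s)} ≤ C * t ^ (-q)) :
    ∃ B : ℝ, 0 ≤ B ∧ ∀ x t : ℝ, 0 < x → x / 50 ≤ t → t ≤ 4 * x → t0 ≤ t →
      t ^ s ≤ (⌈(4 * x) ^ s⌉₊ : ℝ) ∧
      nu.real {w : Ed → ℝ | DC (pw w) t (t ^ s)} +
        (2 * (⌈(4 * x) ^ s⌉₊ : ℝ) + 1) ^ 2 * (1 / 2) ^ ⌈(4 * x) ^ s⌉₊ ≤ B * x ^ (-q) := by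
  obtain ⟨C3, hC3, h3⟩ := half_poly (q / s + 2) (by positivity)
  refine ⟨|C| * 50 ^ q + 4 * C3, by positivity, fun x t hx hxt htx ht0 => ?_⟩
  have ht : 0 < t := lt_of_lt_of_le (by positivity) hxt
  set R := ⌈(4 * x) ^ s⌉₊ with hR
  have hR1 : (4 * x) ^ s ≤ (R : ℝ) := Nat.le_ceil _
  refine ⟨(Real.rpow_le_rpow ht.le htx hs.le).trans hR1, ?_⟩
  have a1 : nu.real {w : Ed → ℝ | DC (pw w) t (t ^ s)} ≤ |C| * 50 ^ q * x ^ (-q) := by
    calc nu.real {w : Ed → ℝ | DC (pw w) t (t ^ s)} ≤ C * t ^ (-q) := h t ht0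
      _ ≤ |C| * t ^ (-q) := mul_le_mul_of_nonneg_right (le_abs_self _) (by positivity)
      _ ≤ |C| * (x / 50) ^ (-q) := mul_le_mul_of_nonneg_left
          (Real.rpow_le_rpow_of_nonpos (by positivity) hxt (by linarith)) (abs_nonneg _)
      _ = |C| * 50 ^ q * x ^ (-q) := by
          rw [Real.div_rpow hx.le (by norm_num), Real.rpow_neg (by norm_num : (0 : ℝ) ≤ 50), div_inv_eq_mul]
          ring
  have hR0 : (0 : ℝ) ≤ R := Nat.cast_nonneg R
  have a2 : (2 * (R : ℝ) + 1) ^ 2 * (1 / 2) ^ R ≤ 4 * C3 * x ^ (-q) := by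
    have e1 : (2 * (R : ℝ) + 1) ^ 2 ≤ 4 * ((R : ℝ) + 1) ^ (2 : ℝ) := by
      rw [Real.rpow_two]
      nlinarith
    have e2 : ((R : ℝ) + 1) ^ (2 : ℝ) * ((R : ℝ) + 1) ^ (-(q / s + 2)) = ((R : ℝ) + 1) ^ (-(q / s)) := by
      rw [← Real.rpow_add (by positivity)]
      congr 1
      ring
    have e3 : ((R : ℝ) + 1) ^ (-(q / s)) ≤ x ^ (-q) := by
      have e4 : x ^ s ≤ (R : ℝ) + 1 := by
        have := Real.rpow_le_rpow hx.le (show x ≤ 4 * x by linarith) hs.le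
        linarith
      calc ((R : ℝ) + 1) ^ (-(q / s)) ≤ (x ^ s) ^ (-(q / s)) :=
            Real.rpow_le_rpow_of_nonpos (by positivity) e4 (by
              have : 0 < q / s := by positivity
              linarith)
        _ = x ^ (-q) := by
            rw [← Real.rpow_mul hx.le]
            congr 1
            field_simp
    calc (2 * (R : ℝ) + 1) ^ 2 * (1 / 2) ^ R
        ≤ (4 * ((R : ℝ) + 1) ^ (2 : ℝ)) * (C3 * ((R : ℝ) + 1) ^ (-(q / s + 2))) :=
          mul_le_mul e1 (h3 R) (by positivity) (by positivity)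
      _ = 4 * C3 * (((R : ℝ) + 1) ^ (2 : ℝ) * ((R : ℝ) + 1) ^ (-(q / s + 2))) := by ring
      _ = 4 * C3 * ((R : ℝ) + 1) ^ (-(q / s)) := by rw [e2]
      _ ≤ 4 * C3 * x ^ (-q) := mul_le_mul_of_nonneg_left e3 (by positivity)
  calc _ ≤ |C| * 50 ^ q * x ^ (-q) + 4 * C3 * x ^ (-q) := add_le_add a1 a2
    _ = _ := by ring

/-- the total correction -/
theorem sumR {s : ℝ} (hs0 : 0 < s) (hs : s < 1) {n : ℝ} (hn : 1 ≤ n) (K : ℕ) :
    ∑ i ∈ range K, 3 * (⌈(4 * (2 ^ i * n)) ^ s⌉₊ : ℝ) / 2 ^ i ≤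
      3 * (4 * (1 - (2 : ℝ) ^ (s - 1))⁻¹ + 2) * n ^ s := by
  set r : ℝ := (2 : ℝ) ^ (s - 1) with hr
  have hr0 : 0 ≤ r := by positivity
  have hr1 : r < 1 := Real.rpow_lt_one_of_one_lt_of_neg (by norm_num) (by linarith)
  have hn0 : 0 < n := by linarith
  have hns : 1 ≤ n ^ s := Real.one_le_rpow hn hs0.le
  have h1 : ∀ i ∈ range K, 3 * (⌈(4 * (2 ^ i * n)) ^ s⌉₊ : ℝ) / 2 ^ i ≤
      12 * n ^ s * r ^ i + 3 * (1 / 2 : ℝ) ^ i := by
    intro i _
    have h2 : (⌈(4 * (2 ^ i * n)) ^ s⌉₊ : ℝ) ≤ (4 * (2 ^ i * n)) ^ s + 1 :=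
      (Nat.ceil_lt_add_one (by positivity)).le
    have h3 : (4 * (2 ^ i * n)) ^ s ≤ 4 * (((2 : ℝ) ^ s) ^ i * n ^ s) := by
      rw [Real.mul_rpow (by norm_num) (by positivity), dbl_pow n hn0.le s i]
      refine mul_le_mul_of_nonneg_right ?_ (by positivity)
      calc (4 : ℝ) ^ s ≤ 4 ^ (1 : ℝ) := Real.rpow_le_rpow_of_exponent_le (by norm_num) hs.le
        _ = 4 := Real.rpow_one 4
    have h4 : ((2 : ℝ) ^ s) ^ i / 2 ^ i = r ^ i := by
      rw [hr, Real.rpow_sub_one (by norm_num), div_pow]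
    calc 3 * (⌈(4 * (2 ^ i * n)) ^ s⌉₊ : ℝ) / 2 ^ i
        ≤ 3 * (4 * (((2 : ℝ) ^ s) ^ i * n ^ s) + 1) / 2 ^ i := by
          refine div_le_div_of_nonneg_right ?_ (by positivity)
          linarith
      _ = 12 * n ^ s * (((2 : ℝ) ^ s) ^ i / 2 ^ i) + 3 * (1 / 2 : ℝ) ^ i := by
          rw [div_pow, one_pow]
          ring
      _ = _ := by rw [h4]
  calc _ ≤ ∑ i ∈ range K, (12 * n ^ s * r ^ i + 3 * (1 / 2 : ℝ) ^ i) := Finset.sum_le_sum h1
    _ = 12 * n ^ s * ∑ i ∈ range K, r ^ i + 3 * ∑ i ∈ range K, (1 / 2 : ℝ) ^ i := by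
        rw [Finset.sum_add_distrib, ← Finset.mul_sum, ← Finset.mul_sum]
    _ ≤ 12 * n ^ s * (1 - r)⁻¹ + 3 * (1 - 1 / 2)⁻¹ := by
        refine add_le_add (mul_le_mul_of_nonneg_left (geo hr0 hr1 K) (by positivity))
          (mul_le_mul_of_nonneg_left (geo (by norm_num) (by norm_num) K) (by norm_num))
    _ ≤ _ := by
        have h5 : (3 : ℝ) * (1 - 1 / 2)⁻¹ = 6 := by norm_num
        rw [h5]
        nlinarith

theorem core2 {μ : ℝ × ℝ → ℝ} (hμ : Shape μ) (hONE : S_ONE2) {s q C t0 : ℝ} (hs0 : 0 < s) (hs : s < 1)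
    (hq : 0 < q)
    (h : ∀ t, t0 ≤ t → nu.real {w : Ed → ℝ | DC (pw w) t (t ^ s)} ≤ C * t ^ (-q)) :
    ∃ M B : ℝ, 0 ≤ M ∧ 0 ≤ B ∧ ∀ᶠ n : ℕ in atTop, ∀ v : ℤ × ℤ, dd 0 v = n →
      nu.real {w : Ed → ℝ | M * (n : ℝ) ^ s < |TT (pw w) 0 v - mz μ v|} ≤ B * (n : ℝ) ^ (-q) := by
  obtain ⟨B0, hB0, hstep⟩ := stepb hs0 hq h
  set r' : ℝ := (2 : ℝ) ^ (-q) with hr'
  have hr'0 : 0 ≤ r' := by positivity
  have hr'1 : r' < 1 := Real.rpow_lt_one_of_one_lt_of_neg (by norm_num) (by linarith)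
  have hinv : 0 ≤ (1 - r')⁻¹ := inv_nonneg.2 (by linarith)
  have hr1 : (2 : ℝ) ^ (s - 1) < 1 := Real.rpow_lt_one_of_one_lt_of_neg (by norm_num) (by linarith)
  set A0 : ℝ := 3 * (4 * (1 - (2 : ℝ) ^ (s - 1))⁻¹ + 2) with hA0
  have hA0p : 0 ≤ A0 := by
    have : 0 ≤ (1 - (2 : ℝ) ^ (s - 1))⁻¹ := inv_nonneg.2 (by linarith)
    positivity
  set M : ℝ := A0 + 1 with hM
  refine ⟨M, 2 * (B0 * (1 - r')⁻¹), by linarith, by positivity, ?_⟩
  have hlim : Tendsto (fun n : ℕ => (n : ℝ) ^ (1 - s)) atTop atTop :=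
    (tendsto_rpow_atTop (by linarith)).comp tendsto_natCast_atTop_atTop
  filter_upwards [hlim.eventually_ge_atTop (50 * M), eventually_ge_atTop 1,
    tendsto_natCast_atTop_atTop.eventually_ge_atTop (50 * t0)] with n hn hn1 hnt v hdv
  set x : ℝ := (n : ℝ) with hx
  have hx1 : 1 ≤ x := by
    rw [hx]
    exact_mod_cast hn1
  have hx0 : 0 < x := by linarith
  have hMx : M * x ^ s ≤ x / 50 := by
    have h1 : x ^ (1 - s) * x ^ s = x := by
      rw [← Real.rpow_add hx0]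
      simp
    have h2 : 50 * M * x ^ s ≤ x ^ (1 - s) * x ^ s := mul_le_mul_of_nonneg_right hn (by positivity)
    rw [h1] at h2
    linarith
  have hxs : 0 < x ^ s := by positivity
  have hxt : t0 ≤ x / 50 := by linarith
  have hmlow := mz_low hμ v
  have hmup := mz_up hμ v
  rw [hdv] at hmlow hmup
  set m := mz μ v with hm
  set vk : ℕ → ℤ × ℤ := fun k => ((2 ^ k : ℕ) : ℤ) • v with hvk
  have hvk0 : vk 0 = v := by simp [hvk]
  have hvks : ∀ k, vk k + vk k = vk (k + 1) := by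
    intro k
    simp only [hvk]
    rw [← add_smul]
    congr 1
    push_cast
    ring
  set R : ℕ → ℕ := fun i => ⌈(4 * (2 ^ i * x)) ^ s⌉₊ with hR
  have hRsum : ∀ K, ∑ i ∈ range K, 3 * (R i : ℝ) / 2 ^ i ≤ A0 * x ^ s := fun K => sumR hs0 hs hx1 K
  have hRsum0 : ∀ K, 0 ≤ ∑ i ∈ range K, 3 * (R i : ℝ) / 2 ^ i := fun K =>
    Finset.sum_nonneg fun i _ => by positivity
  have hB : 0 ≤ B0 * x ^ (-q) := by positivity
  have hscale : ∀ k : ℕ, B0 * (2 ^ k * x) ^ (-q) = B0 * x ^ (-q) * r' ^ k := by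
    intro k
    rw [dbl_pow x hx0.le (-q) k, hr']
    ring
  -- the lower side
  set tl : ℕ → ℝ := fun k => 2 ^ k * (m - M * x ^ s + (∑ i ∈ range k, 3 * (R i : ℝ) / 2 ^ i) / 2) with htl
  have htls : ∀ k, tl (k + 1) = 2 * tl k + 3 * (R k : ℝ) := by
    intro k
    simp only [htl]
    rw [Finset.sum_range_succ, pow_succ]
    field_simp
    ring
  have htlb : ∀ k, 2 ^ k * x / 50 ≤ tl k ∧ tl k ≤ 2 ^ k * (m - x ^ s) := by
    intro k
    have h1 := hRsum k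
    have h2 := hRsum0 k
    have h3 : (0 : ℝ) < 2 ^ k := by positivity
    constructor
    · have : x / 50 ≤ m - M * x ^ s + (∑ i ∈ range k, 3 * (R i : ℝ) / 2 ^ i) / 2 := by linarith
      calc 2 ^ k * x / 50 = 2 ^ k * (x / 50) := by ring
        _ ≤ _ := mul_le_mul_of_nonneg_left this h3.le
    · refine mul_le_mul_of_nonneg_left ?_ h3.le
      have : M * x ^ s = A0 * x ^ s + x ^ s := by rw [hM]; ring
      linarith
  have hlow : nu.real {w : Ed → ℝ | TT (pw w) 0 (vk 0) ≤ tl 0} ≤ B0 * x ^ (-q) * (1 - r')⁻¹ := by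
    refine oneside hμ (fun k => {w : Ed → ℝ | TT (pw w) 0 (vk k) ≤ tl k}) hB hr'0 hr'1 hxs ?_ v ?_
    · intro k
      obtain ⟨b1, b2⟩ := htlb k
      have h2k : (1 : ℝ) ≤ 2 ^ k := one_le_pow₀ (by norm_num)
      have hxk : 0 < 2 ^ k * x := by positivity
      have h3 : x / 50 ≤ 2 ^ k * x / 50 := by
        refine div_le_div_of_nonneg_right ?_ (by norm_num)
        nlinarith
      have h4 : tl k ≤ 4 * (2 ^ k * x) := by
        refine b2.trans ?_
        nlinarith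
      obtain ⟨c1, c2⟩ := hstep (2 ^ k * x) (tl k) hxk b1 h4 (by linarith)
      rw [hscale] at c2
      refine le_trans (measureReal_mono ?_ (measure_ne_top nu _)) ((hONE (vk k) (tl k) (tl k ^ s) (R k) c1).1.trans c2)
      rintro w ⟨hw1, hw2⟩
      refine ⟨hw1, ?_⟩
      have hw3 : ¬ TT (pw w) 0 (vk (k + 1)) ≤ tl (k + 1) := hw2
      rw [hvks, ← htls]
      exact not_le.1 hw3
    · intro K w hw
      have hw1 : TT (pw w) 0 (vk K) ≤ tl K := hw
      have h3 : (0 : ℝ) < 2 ^ K := by positivity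
      have h4 : TT (pw w) 0 (vk K) / 2 ^ K ≤ m - x ^ s := by
        rw [div_le_iff₀ h3]
        calc TT (pw w) 0 (vk K) ≤ tl K := hw1
          _ ≤ 2 ^ K * (m - x ^ s) := (htlb K).2
          _ = _ := by ring
      show x ^ s ≤ |TT (pw w) 0 (((2 ^ K : ℕ) : ℤ) • v) / ((2 ^ K : ℕ) : ℝ) - m|
      have h5 : TT (pw w) 0 (((2 ^ K : ℕ) : ℤ) • v) / ((2 ^ K : ℕ) : ℝ) = TT (pw w) 0 (vk K) / 2 ^ K := by
        simp only [hvk]
        push_cast
        rfl
      rw [h5, abs_sub_comm]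
      refine le_trans ?_ (le_abs_self _)
      linarith
  -- the upper side
  set tu : ℕ → ℝ := fun k => 2 ^ k * (m + M * x ^ s - ∑ i ∈ range k, 3 * (R i : ℝ) / 2 ^ i) with htu
  have htus : ∀ k, tu (k + 1) = 2 * (tu k - 3 * (R k : ℝ)) := by
    intro k
    simp only [htu]
    rw [Finset.sum_range_succ, pow_succ]
    field_simp
    ring
  have htub : ∀ k, 2 ^ k * (m + x ^ s) ≤ tu k ∧ tu k ≤ 2 ^ k * (m + M * x ^ s) := by
    intro k
    have h1 := hRsum k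
    have h2 := hRsum0 k
    have h3 : (0 : ℝ) < 2 ^ k := by positivity
    constructor
    · refine mul_le_mul_of_nonneg_left ?_ h3.le
      have : M * x ^ s = A0 * x ^ s + x ^ s := by rw [hM]; ring
      linarith
    · refine mul_le_mul_of_nonneg_left ?_ h3.le
      linarith
  have hupp : nu.real {w : Ed → ℝ | tu 0 < TT (pw w) 0 (vk 0)} ≤ B0 * x ^ (-q) * (1 - r')⁻¹ := by
    refine oneside hμ (fun k => {w : Ed → ℝ | tu k < TT (pw w) 0 (vk k)}) hB hr'0 hr'1 hxs ?_ v ?_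
    · intro k
      have h2k : (1 : ℝ) ≤ 2 ^ k := one_le_pow₀ (by norm_num)
      have hxk : 0 < 2 ^ k * x := by positivity
      set t := tu k - 3 * (R k : ℝ) with ht
      have e1 : tu (k + 1) = 2 * t := htus k
      have b1 : 2 ^ k * x / 50 ≤ t := by
        have h1 := (htub (k + 1)).1
        rw [e1, pow_succ] at h1
        have h2 : 2 ^ k * (m + x ^ s) ≤ t := by linarith
        refine le_trans ?_ h2
        rw [mul_div_assoc]
        exact mul_le_mul_of_nonneg_left (by linarith) (by positivity)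
      have b2 : t ≤ 4 * (2 ^ k * x) := by
        have h1 := (htub k).2
        have h2 : (0 : ℝ) ≤ 3 * (R k : ℝ) := by positivity
        have h3 : 2 ^ k * (m + M * x ^ s) ≤ 2 ^ k * (4 * x) :=
          mul_le_mul_of_nonneg_left (by linarith) (by positivity)
        linarith
      have h3 : x / 50 ≤ 2 ^ k * x / 50 := by
        refine div_le_div_of_nonneg_right ?_ (by norm_num)
        nlinarith
      obtain ⟨c1, c2⟩ := hstep (2 ^ k * x) t hxk b1 b2 (by linarith)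
      rw [hscale] at c2
      refine le_trans (measureReal_mono ?_ (measure_ne_top nu _)) ((hONE (vk k) t (t ^ s) (R k) c1).2.trans c2)
      rintro w ⟨hw1, hw2⟩
      have hw1' : tu k < TT (pw w) 0 (vk k) := hw1
      have hw3 : ¬ tu (k + 1) < TT (pw w) 0 (vk (k + 1)) := hw2
      refine ⟨?_, ?_⟩
      · have : t + 3 * (R k : ℝ) = tu k := by rw [ht]; ring
        rw [this]
        exact hw1'
      · rw [hvks, ← e1]
        exact not_lt.1 hw3
    · intro K w hw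
      have hw1 : tu K < TT (pw w) 0 (vk K) := hw
      have h3 : (0 : ℝ) < 2 ^ K := by positivity
      have h4 : m + x ^ s ≤ TT (pw w) 0 (vk K) / 2 ^ K := by
        rw [le_div_iff₀ h3]
        calc (m + x ^ s) * 2 ^ K = 2 ^ K * (m + x ^ s) := by ring
          _ ≤ tu K := (htub K).1
          _ ≤ TT (pw w) 0 (vk K) := hw1.le
      show x ^ s ≤ |TT (pw w) 0 (((2 ^ K : ℕ) : ℤ) • v) / ((2 ^ K : ℕ) : ℝ) - m|
      have h5 : TT (pw w) 0 (((2 ^ K : ℕ) : ℤ) • v) / ((2 ^ K : ℕ) : ℝ) = TT (pw w) 0 (vk K) / 2 ^ K := by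
        simp only [hvk]
        push_cast
        rfl
      rw [h5]
      refine le_trans ?_ (le_abs_self _)
      linarith
  -- together
  have hsub : {w : Ed → ℝ | M * x ^ s < |TT (pw w) 0 v - m|} ⊆
      {w : Ed → ℝ | TT (pw w) 0 (vk 0) ≤ tl 0} ∪ {w : Ed → ℝ | tu 0 < TT (pw w) 0 (vk 0)} := by
    intro w hw
    have hw1 : M * x ^ s < |TT (pw w) 0 v - m| := hw
    have e1 : tl 0 = m - M * x ^ s := by simp [htl]
    have e2 : tu 0 = m + M * x ^ s := by simp [htu]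
    rcases lt_abs.1 hw1 with h1 | h1
    · right
      show tu 0 < TT (pw w) 0 (vk 0)
      rw [e2, hvk0]
      linarith
    · left
      show TT (pw w) 0 (vk 0) ≤ tl 0
      rw [e1, hvk0]
      linarith
  calc nu.real {w : Ed → ℝ | M * x ^ s < |TT (pw w) 0 v - m|}
      ≤ _ := measureReal_mono hsub (measure_ne_top nu _)
    _ ≤ _ := measureReal_union_le _ _
    _ ≤ B0 * x ^ (-q) * (1 - r')⁻¹ + B0 * x ^ (-q) * (1 - r')⁻¹ := add_le_add hlow hupp
    _ = _ := by ring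

theorem t_DCS (hONE2 : S_ONE2) : S_DCS := by
  intro μ b hμ hb hb1 hD ζ hζ
  set ζ' : ℝ := min (ζ / 2) ((1 - b) / 2) with hζ'
  have h1 : 0 < ζ' := lt_min (by linarith) (by linarith)
  have h2 : ζ' ≤ ζ / 2 := min_le_left _ _
  have h3 : ζ' ≤ (1 - b) / 2 := min_le_right _ _
  obtain ⟨C₀, hC₀⟩ := hD ζ' h1 (by linarith)
  obtain ⟨t0, ht0⟩ := eventually_atTop.1 hC₀
  set q : ℝ := 2 * (1 - b) - ζ' with hq
  have hq0 : 0 < q := by linarith
  have hs : b + ζ' < 1 := by linarith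
  obtain ⟨M, B, hM, hB, hev⟩ := core2 hμ hONE2 (s := b + ζ') (q := q) (C := C₀) (t0 := t0) (by linarith) hs hq0
    (fun t ht => by
      refine (ht0 t ht).trans (le_of_eq ?_)
      congr 2
      rw [hq]
      ring)
  obtain ⟨C', hC'0, hC'⟩ := of_ev
    (P := fun v => nu.real {w : Ed → ℝ | (dd 0 v : ℝ) ^ (b + ζ) < |TT (pw w) 0 v - mz μ v|})
    (fun v => measureReal_le_one) hq0 (show (0 : ℝ) < B + 1 by linarith) (by
      have hlim : Tendsto (fun n : ℕ => (n : ℝ) ^ (ζ - ζ')) atTop atTop :=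
        (tendsto_rpow_atTop (by linarith)).comp tendsto_natCast_atTop_atTop
      filter_upwards [hlim.eventually_ge_atTop M, eventually_ge_atTop 1, hev] with n hn hn1 hn2 z hz
      have hn0 : (0 : ℝ) < n := by exact_mod_cast hn1
      have h4 := hn2 z hz
      simp only [hz]
      refine (measureReal_mono ?_ (measure_ne_top nu _)).trans (h4.trans ?_)
      · intro w hw
        simp only [Set.mem_ofPred_eq] at hw ⊢
        refine lt_of_le_of_lt ?_ hw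
        calc M * (n : ℝ) ^ (b + ζ') ≤ (n : ℝ) ^ (ζ - ζ') * (n : ℝ) ^ (b + ζ') :=
              mul_le_mul_of_nonneg_right hn (by positivity)
          _ = (n : ℝ) ^ (b + ζ) := by
              rw [← Real.rpow_add hn0]
              congr 1
              ring
      · exact mul_le_mul_of_nonneg_right (by linarith) (by positivity))
  refine ⟨mz μ, C', fun v hv => (hC' v hv).trans ?_⟩
  refine mul_le_mul_of_nonneg_left ?_ hC'0.le
  refine Real.rpow_le_rpow_of_exponent_le (by exact_mod_cast dd_pos hv) ?_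
  rw [hq]
  linarith

end Pool.Agent.H40.SY
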