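import Pool.Agent.H30.SY.Stm5

/-!
# Project SY (helper30), item 23 (helper40): bisecting boxes give numbers
-/

set_option autoImplicit false

open MeasureTheory ProbabilityTheory Finset Filter
open scoped Topology

namespace Pool.Agent.H40.SY

open Q70.Fp Q69.FL
open Pool.Agent.H30.SY
open Pool.Agent.H69.FP (union_ball nat_ev)

/-- the probabilistic step for one `n` -/
theorem stepU2 (hU1 : S_U1) {m : ℤ × ℤ → ℝ} (hm0 : ∀ v, 0 ≤ m v)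
    (hm3 : ∀ v, m v ≤ 3 * (dd 0 v : ℝ))
    (hmed : ∀ v, 132 ≤ dd 0 v → nu.real {w | TT (pw w) 0 v < m v} ≤ 1 / 2 ∧
      nu.real {w | m v < TT (pw w) 0 v} ≤ 1 / 2)
    {n J : ℕ} (hJ : 132 ≤ J) {s r : ℝ} (hs : 0 ≤ s) (hr : 133 * (J:ℝ) * s ≤ r)
    (hr3 : 3 * (J:ℝ) ≤ r) (hsr : s ≤ r) :
    nu.real {w | BS (pw w) ((133 * J + 3) * n) s} ≤
      nu.real {w : Ed → ℝ | ∀ x ∈ ball n 0, ∀ v ∈ ball n 0,
        |TT (pw w) x (x + v) - m v| ≤ r ∧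
        |TT (pw w) x (x + v + v) - 2 * TT (pw w) x (x + v)| ≤ r} +
      (((2 * n + 1) ^ 2 : ℕ) : ℝ) * ((((2 * n + 1) ^ 2 : ℕ) : ℝ) *
        (2 * (3 / 4) ^ J + 4 * J * (1 / 2) ^ J + (1 / 2) ^ J)) := by
  obtain ⟨N, hN⟩ : ∃ N, N = (133 * J + 3) * n := ⟨_, rfl⟩
  rw [← hN]
  have hnN : n ≤ N := by
    rw [hN]
    exact Nat.le_mul_of_pos_left _ (by omega)
  have hp : ∀ x ∈ ball n 0, ∀ v ∈ ball n 0,
      nu.real {w | BS (pw w) N s ∧ r < |TT (pw w) x (x + v) - m v|} ≤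
        2 * (3 / 4) ^ J + 4 * J * (1 / 2) ^ J + (1 / 2) ^ J := by
    intro x hx v hv
    rw [mem_ball] at hx hv
    by_cases hvJ : J ≤ dd 0 v
    · obtain ⟨h1, h2⟩ := hmed v (hJ.trans hvJ)
      have h0 : dd 0 x + (133 * J + 2) * dd 0 v ≤ N := by
        have h3 : (133 * J + 2) * dd 0 v ≤ (133 * J + 2) * n := Nat.mul_le_mul_left _ hv
        calc dd 0 x + (133 * J + 2) * dd 0 v ≤ n + (133 * J + 2) * n := by omega
          _ = N := by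
              rw [hN]
              ring
      have h3 := hU1 v x J N s (m v) (by omega) hs h0 h1 h2
      have h4 : nu.real {w | BS (pw w) N s ∧ r < |TT (pw w) x (x + v) - m v|} ≤
          nu.real {w | BS (pw w) N s ∧ 133 * (J:ℝ) * s < |TT (pw w) x (x + v) - m v|} :=
        measureReal_mono (fun w hw => ⟨hw.1, lt_of_le_of_lt hr hw.2⟩) (measure_ne_top _ _)
      have h5 : (1 / 2 : ℝ) ^ (dd 0 v) ≤ (1 / 2) ^ J :=
        pow_le_pow_of_le_one (by norm_num) (by norm_num) hvJ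
      have h6 : 4 * (J:ℝ) * (1 / 2) ^ (dd 0 v) ≤ 4 * J * (1 / 2) ^ J :=
        mul_le_mul_of_nonneg_left h5 (by positivity)
      have h7 : (0:ℝ) ≤ (1 / 2) ^ J := by positivity
      linarith
    · push Not at hvJ
      have h4 : nu.real {w | BS (pw w) N s ∧ r < |TT (pw w) x (x + v) - m v|} ≤
          nu.real {w | 3 * (J:ℝ) ≤ TT (pw w) x (x + v)} := by
        refine measureReal_mono (fun w hw => ?_) (measure_ne_top _ _)
        have h5 := hw.2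
        have h6 := TT_nonneg (pw_nonneg w) x (x + v)
        have h7 := hm0 v
        have h8 := hm3 v
        have h9 : (dd 0 v : ℝ) ≤ J := by exact_mod_cast hvJ.le
        show 3 * (J:ℝ) ≤ TT (pw w) x (x + v)
        rcases lt_abs.1 h5 with h | h
        · linarith
        · linarith
      have h5 : nu.real {w | 3 * (J:ℝ) ≤ TT (pw w) x (x + v)} ≤ (1 / 2) ^ J := by
        apply straight
        have h6 := dd_add 0 v x
        rw [zero_add, add_comm v x] at h6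
        rw [h6]
        exact hvJ.le
      have h6 : (0:ℝ) ≤ 2 * (3 / 4) ^ J + 4 * J * (1 / 2) ^ J := by positivity
      linarith
  have hub := union_ball n (fun x v => {w | BS (pw w) N s ∧ r < |TT (pw w) x (x + v) - m v|})
    (p := 2 * (3 / 4) ^ J + 4 * J * (1 / 2) ^ J + (1 / 2) ^ J) (by positivity) hp
  have hsub : {w | BS (pw w) N s} ⊆ {w : Ed → ℝ | ∀ x ∈ ball n 0, ∀ v ∈ ball n 0,
        |TT (pw w) x (x + v) - m v| ≤ r ∧
        |TT (pw w) x (x + v + v) - 2 * TT (pw w) x (x + v)| ≤ r} ∪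
      {w | ∃ x ∈ ball n 0, ∃ y ∈ ball n 0,
        w ∈ (fun x v => {w | BS (pw w) N s ∧ r < |TT (pw w) x (x + v) - m v|}) x y} := by
    intro w hw
    by_cases hb : ∃ x ∈ ball n 0, ∃ y ∈ ball n 0,
        w ∈ (fun x v => {w | BS (pw w) N s ∧ r < |TT (pw w) x (x + v) - m v|}) x y
    · exact Or.inr hb
    · left
      intro x hx v hv
      constructor
      · by_contra hcon
        rw [not_le] at hcon
        exact hb ⟨x, hx, v, hv, hw, hcon⟩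
      · refine (hw x ?_ v ?_).trans hsr
        · rw [mem_ball] at hx ⊢
          exact hx.trans hnN
        · rw [mem_ball] at hv ⊢
          exact hv.trans hnN
  refine (measureReal_mono hsub (measure_ne_top _ _)).trans ((measureReal_union_le _ _).trans ?_)
  exact add_le_add_right hub _

/-- the decay -/
theorem decay {K : ℕ} (hK : 1 ≤ K) {J : ℕ → ℕ} (hJ : Tendsto J atTop atTop)
    (hnJ : ∀ n : ℕ, (n:ℝ) ≤ ((J n : ℝ) + 1) ^ K) :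
    Tendsto (fun n : ℕ => (((2 * n + 1) ^ 2 : ℕ) : ℝ) * ((((2 * n + 1) ^ 2 : ℕ) : ℝ) *
        (2 * (3 / 4) ^ J n + 4 * J n * (1 / 2) ^ J n + (1 / 2) ^ J n))) atTop (𝓝 0) := by
  have h0 := tendsto_pow_const_mul_const_pow_of_abs_lt_one (4 * K + 1) (r := (3 / 4 : ℝ))
    (by rw [abs_of_pos] <;> norm_num)
  have h1 : Tendsto (fun n => J n + 1) atTop atTop := tendsto_atTop_mono (fun n => Nat.le_succ _) hJ
  have h2 := (h0.comp h1).const_mul 432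
  rw [mul_zero] at h2
  refine squeeze_zero (fun n => by positivity) (fun n => ?_) h2
  simp only [Function.comp]
  push_cast
  have e1 : 2 * (n:ℝ) + 1 ≤ 3 * ((J n : ℝ) + 1) ^ K := by
    have h3 := hnJ n
    have h4 : (1:ℝ) ≤ ((J n : ℝ) + 1) ^ K := one_le_pow₀ (by
      have : (0:ℝ) ≤ J n := Nat.cast_nonneg _
      linarith)
    linarith
  have e2 : (2 * (n:ℝ) + 1) ^ 2 ≤ 9 * (((J n : ℝ) + 1) ^ K) ^ 2 := by
    have := pow_le_pow_left₀ (by positivity) e1 2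
    calc (2 * (n:ℝ) + 1) ^ 2 ≤ _ := this
      _ = _ := by ring
  have e3 : (1 / 2 : ℝ) ^ J n ≤ (3 / 4) ^ J n := pow_le_pow_left₀ (by norm_num) (by norm_num) _
  have e4 : 2 * (3 / 4 : ℝ) ^ J n + 4 * J n * (1 / 2) ^ J n + (1 / 2) ^ J n ≤
      4 * ((J n : ℝ) + 1) * (3 / 4) ^ J n := by
    have h5 : 4 * (J n : ℝ) * (1 / 2) ^ J n ≤ 4 * J n * (3 / 4) ^ J n :=
      mul_le_mul_of_nonneg_left e3 (by positivity)
    have h6 : (0:ℝ) ≤ (3 / 4) ^ J n := by positivity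
    linarith
  calc (2 * (n:ℝ) + 1) ^ 2 * ((2 * (n:ℝ) + 1) ^ 2 *
        (2 * (3 / 4) ^ J n + 4 * J n * (1 / 2) ^ J n + (1 / 2) ^ J n))
      ≤ (9 * (((J n : ℝ) + 1) ^ K) ^ 2) * ((9 * (((J n : ℝ) + 1) ^ K) ^ 2) *
        (4 * ((J n : ℝ) + 1) * (3 / 4) ^ J n)) := by gcongr
    _ = 432 * (((J n : ℝ) + 1) ^ (4 * K + 1) * (3 / 4) ^ (J n + 1)) := by
        rw [← pow_mul, pow_succ (3 / 4 : ℝ), pow_succ _ (4 * K), show 4 * K = K * 2 + K * 2 by ring,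
          pow_add]
        ring

/-- the exponents -/
theorem expo {b ζ : ℝ} (hb0 : 0 < b) (hb1 : b < 1) (hζ : 0 < ζ) :
    ∃ K : ℕ, 1 ≤ K ∧ ∀ᶠ n : ℕ in atTop,
      133 * ((⌊(n:ℝ) ^ ((K:ℝ)⁻¹)⌋₊ : ℕ) : ℝ) *
        ((((133 * ⌊(n:ℝ) ^ ((K:ℝ)⁻¹)⌋₊ + 3) * n : ℕ) : ℝ) ^ (b + ζ / 4)) ≤ (n:ℝ) ^ (b + ζ) := by
  obtain ⟨K, hK⟩ := exists_nat_gt (4 * (2 + ζ) / ζ)
  have hK0 : (0:ℝ) < K := lt_of_le_of_lt (by positivity) hK
  have hK1 : 1 ≤ K := by exact_mod_cast hK0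
  refine ⟨K, hK1, ?_⟩
  obtain ⟨δ, hδ⟩ : ∃ δ : ℝ, δ = (K:ℝ)⁻¹ := ⟨_, rfl⟩
  have hδ0 : 0 < δ := by
    rw [hδ]
    positivity
  have hδ1 : δ * (2 + ζ) < ζ / 4 := by
    rw [hδ, inv_mul_lt_iff₀ hK0]
    rw [div_lt_iff₀ hζ] at hK
    linarith
  rw [← hδ]
  have he : δ + (1 + δ) * (b + ζ / 4) < b + ζ := by nlinarith
  have h1 := nat_ev (rpow_small (K := 133 * 136 ^ (b + ζ / 4)) he)
  filter_upwards [h1, eventually_ge_atTop 1] with n hn hn1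
  have hn1' : (1:ℝ) ≤ n := by exact_mod_cast hn1
  have hn0 : (0:ℝ) < n := by linarith
  have hnδ : 1 ≤ (n:ℝ) ^ δ := Real.one_le_rpow hn1' hδ0.le
  have hJ : ((⌊(n:ℝ) ^ δ⌋₊ : ℕ) : ℝ) ≤ (n:ℝ) ^ δ := Nat.floor_le (by positivity)
  refine le_trans ?_ hn
  have hN : (((133 * ⌊(n:ℝ) ^ δ⌋₊ + 3) * n : ℕ) : ℝ) ≤ 136 * (n:ℝ) ^ (1 + δ) := by
    push_cast
    rw [Real.rpow_add hn0, Real.rpow_one]
    nlinarith
  have hs : (((133 * ⌊(n:ℝ) ^ δ⌋₊ + 3) * n : ℕ) : ℝ) ^ (b + ζ / 4) ≤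
      136 ^ (b + ζ / 4) * (n:ℝ) ^ ((1 + δ) * (b + ζ / 4)) := by
    refine (Real.rpow_le_rpow (by positivity) hN (by positivity)).trans (le_of_eq ?_)
    rw [Real.mul_rpow (by norm_num) (by positivity), ← Real.rpow_mul hn0.le]
  calc 133 * ((⌊(n:ℝ) ^ δ⌋₊ : ℕ) : ℝ) * ((((133 * ⌊(n:ℝ) ^ δ⌋₊ + 3) * n : ℕ) : ℝ) ^ (b + ζ / 4))
      ≤ 133 * (n:ℝ) ^ δ * (136 ^ (b + ζ / 4) * (n:ℝ) ^ ((1 + δ) * (b + ζ / 4))) := by
        gcongr
    _ = 133 * 136 ^ (b + ζ / 4) * ((n:ℝ) ^ δ * (n:ℝ) ^ ((1 + δ) * (b + ζ / 4))) := by ring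
    _ = 133 * 136 ^ (b + ζ / 4) * (n:ℝ) ^ (δ + (1 + δ) * (b + ζ / 4)) := by
        rw [← Real.rpow_add hn0]

theorem t_U2 (hU1 : S_U1) : S_U2 := by
  classical
  intro hMED b hb0 hb1 hBp
  have hm : ∀ v : ℤ × ℤ, ∃ c : ℝ, 0 ≤ c ∧ c ≤ 3 * (dd 0 v : ℝ) ∧ (132 ≤ dd 0 v →
      nu.real {w | TT (pw w) 0 v < c} ≤ 1 / 2 ∧ nu.real {w | c < TT (pw w) 0 v} ≤ 1 / 2) := by
    intro v
    by_cases hv : 132 ≤ dd 0 v
    · obtain ⟨c, h1, h2, h3, h4⟩ := hMED v hv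
      exact ⟨c, le_trans (by positivity) h1, h2, fun _ => ⟨h3, h4⟩⟩
    · exact ⟨0, le_rfl, by positivity, fun h => absurd h hv⟩
  choose m hm0 hm3 hmed using hm
  refine ⟨m, fun ζ hζ => ?_⟩
  obtain ⟨K, hK, hA⟩ := expo hb0 hb1 hζ
  obtain ⟨c, hc, hcn⟩ := hBp (ζ / 4) (by positivity)
  refine ⟨c / 2, by positivity, ?_⟩
  have hK0 : (0:ℝ) < K := by exact_mod_cast hK
  obtain ⟨J, hJd⟩ : ∃ J : ℕ → ℕ, J = fun n : ℕ => ⌊(n:ℝ) ^ ((K:ℝ)⁻¹)⌋₊ := ⟨_, rfl⟩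
  have hJn : ∀ n : ℕ, ⌊(n:ℝ) ^ ((K:ℝ)⁻¹)⌋₊ = J n := fun n => by rw [hJd]
  simp only [hJn] at hA
  have tJ : Tendsto J atTop atTop := by
    rw [hJd]
    exact tendsto_nat_floor_atTop.comp
      ((tendsto_rpow_atTop (by positivity)).comp tendsto_natCast_atTop_atTop)
  have hnJ : ∀ n : ℕ, (n:ℝ) ≤ ((J n : ℝ) + 1) ^ K := by
    intro n
    have h1 : (n:ℝ) ^ ((K:ℝ)⁻¹) ≤ (J n : ℝ) + 1 := by
      rw [← hJn n]
      exact (Nat.lt_floor_add_one _).le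
    calc (n:ℝ) = ((n:ℝ) ^ ((K:ℝ)⁻¹)) ^ K := by
          rw [← Real.rpow_natCast, ← Real.rpow_mul (Nat.cast_nonneg n),
            inv_mul_cancel₀ hK0.ne', Real.rpow_one]
      _ ≤ ((J n : ℝ) + 1) ^ K := pow_le_pow_left₀ (by positivity) h1 _
  have hdec := decay hK tJ hnJ
  have tN : Tendsto (fun n => (133 * J n + 3) * n) atTop atTop :=
    tendsto_atTop_mono (fun n => Nat.le_mul_of_pos_left n (by omega)) tendsto_id
  filter_upwards [tN.eventually hcn, tJ.eventually_ge_atTop 132, hA,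
    hdec.eventually (eventually_le_nhds (show (0:ℝ) < c / 2 by positivity)),
    eventually_ge_atTop 1] with n h1 h2 h3 h4 h5
  have hs1 : 1 ≤ ((((133 * J n + 3) * n : ℕ) : ℝ) ^ (b + ζ / 4)) := by
    apply Real.one_le_rpow _ (by positivity)
    have : 1 ≤ (133 * J n + 3) * n := Nat.one_le_iff_ne_zero.2 (by positivity)
    exact_mod_cast this
  have hJ1 : (132:ℝ) ≤ J n := by exact_mod_cast h2
  have hr3 : 3 * (J n : ℝ) ≤ (n:ℝ) ^ (b + ζ) := by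
    refine le_trans ?_ h3
    have : 133 * (J n : ℝ) * 1 ≤ 133 * (J n : ℝ) * (((133 * J n + 3) * n : ℕ) : ℝ) ^ (b + ζ / 4) :=
      mul_le_mul_of_nonneg_left hs1 (by positivity)
    linarith
  have hsr : ((((133 * J n + 3) * n : ℕ) : ℝ) ^ (b + ζ / 4)) ≤ (n:ℝ) ^ (b + ζ) := by
    refine le_trans ?_ h3
    have : 1 * ((((133 * J n + 3) * n : ℕ) : ℝ) ^ (b + ζ / 4)) ≤
        133 * (J n : ℝ) * (((133 * J n + 3) * n : ℕ) : ℝ) ^ (b + ζ / 4) :=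
      mul_le_mul_of_nonneg_right (by linarith) (by linarith)
    linarith
  have h6 := stepU2 hU1 hm0 hm3 hmed (n := n) h2 (by linarith) h3 hr3 hsr
  have h7 := h1.trans h6
  linarith

end Pool.Agent.H40.SY
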