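import Pool.Agent.H30.SY.Stm6
import Pool.Agent.H40.SY.U2

/-!
# Project SY (helper30), item 26 (helper40): symmetric boxes give numbers
-/

set_option autoImplicit false

open MeasureTheory ProbabilityTheory Finset Filter
open scoped Topology

namespace Pool.Agent.H40.SY

open Q70.Fp Q69.FL
open Pool.Agent.H30.SY
open Pool.Agent.H69.FP (union_ball nat_ev)

/-- the probabilistic step for one `n` -/
theorem stepR2 (hR1 : S_R1) {m : ℤ × ℤ → ℝ} (hm0 : ∀ v, 0 ≤ m v)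
    (hm3 : ∀ v, m v ≤ 3 * (dd 0 v : ℝ))
    (hmed : ∀ v, 132 ≤ dd 0 v → nu.real {w | TT (pw w) 0 v < m v} ≤ 1 / 2 ∧
      nu.real {w | m v < TT (pw w) 0 v} ≤ 1 / 2)
    {n J : ℕ} (hJ : 132 ≤ J) {s r : ℝ} (hs : 0 ≤ s) (hr : 133 * (J:ℝ) * s ≤ r)
    (hr3 : 3 * (J:ℝ) ≤ r) :
    nu.real {w | RS (pw w) ((133 * J + 3) * n) s} ≤
      nu.real {w : Ed → ℝ | ∀ x ∈ ball n 0, ∀ v ∈ ball n 0,
        |TT (pw w) x (x + v) - m v| ≤ r} +
      (((2 * n + 1) ^ 2 : ℕ) : ℝ) * ((((2 * n + 1) ^ 2 : ℕ) : ℝ) *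
        (2 * (3 / 4) ^ J + 4 * J * (1 / 2) ^ J + (1 / 2) ^ J)) := by
  obtain ⟨N, hN⟩ : ∃ N, N = (133 * J + 3) * n := ⟨_, rfl⟩
  rw [← hN]
  have hp : ∀ x ∈ ball n 0, ∀ v ∈ ball n 0,
      nu.real {w | RS (pw w) N s ∧ r < |TT (pw w) x (x + v) - m v|} ≤
        2 * (3 / 4) ^ J + 4 * J * (1 / 2) ^ J + (1 / 2) ^ J := by
    intro x hx v hv
    rw [mem_ball] at hx hv
    by_cases hvJ : J ≤ dd 0 v
    · obtain ⟨h1, h2⟩ := hmed v (hJ.trans hvJ)
      have h0 : dd 0 x + (133 * J + 2) * dd 0 v ≤ N := by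
        have h3 : (133 * J + 2) * dd 0 v ≤ (133 * J + 2) * n := Nat.mul_le_mul_left _ hv
        calc dd 0 x + (133 * J + 2) * dd 0 v ≤ n + (133 * J + 2) * n := by omega
          _ = N := by
              rw [hN]
              ring
      have h3 := hR1 v x J N s (m v) (by omega) hs h0 ⟨h1, h2⟩
      have h4 : nu.real {w | RS (pw w) N s ∧ r < |TT (pw w) x (x + v) - m v|} ≤
          nu.real {w | RS (pw w) N s ∧ 133 * (J:ℝ) * s < |TT (pw w) x (x + v) - m v|} :=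
        measureReal_mono (fun w hw => ⟨hw.1, lt_of_le_of_lt hr hw.2⟩) (measure_ne_top _ _)
      have h5 : (1 / 2 : ℝ) ^ (dd 0 v) ≤ (1 / 2) ^ J :=
        pow_le_pow_of_le_one (by norm_num) (by norm_num) hvJ
      have h6 : 4 * (J:ℝ) * (1 / 2) ^ (dd 0 v) ≤ 4 * J * (1 / 2) ^ J :=
        mul_le_mul_of_nonneg_left h5 (by positivity)
      have h7 : (0:ℝ) ≤ (1 / 2) ^ J := by positivity
      linarith
    · push Not at hvJ
      have h4 : nu.real {w | RS (pw w) N s ∧ r < |TT (pw w) x (x + v) - m v|} ≤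
          nu.real {w | 3 * (J:ℝ) ≤ TT (pw w) x (x + v)} := by
        refine measureReal_mono (fun w hw => ?_) (measure_ne_top _ _)
        have h5 := hw.2
        have h6 := TT_nonneg (pw_nonneg w) x (x + v)
        have h7 := hm0 v
        have h8 := hm3 v
        have h9 : (dd 0 v : ℝ) ≤ J := by exact_mod_cast hvJ.le
        show 3 * (J:ℝ) ≤ TT (pw w) x (x + v)
        rcases lt_abs.1 h5 with h | h
        · linarith
        · linarith
      have h5 : nu.real {w | 3 * (J:ℝ) ≤ TT (pw w) x (x + v)} ≤ (1 / 2) ^ J := by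
        apply straight
        have h6 := dd_add 0 v x
        rw [zero_add, add_comm v x] at h6
        rw [h6]
        exact hvJ.le
      have h6 : (0:ℝ) ≤ 2 * (3 / 4) ^ J + 4 * J * (1 / 2) ^ J := by positivity
      linarith
  have hub := union_ball n (fun x v => {w | RS (pw w) N s ∧ r < |TT (pw w) x (x + v) - m v|})
    (p := 2 * (3 / 4) ^ J + 4 * J * (1 / 2) ^ J + (1 / 2) ^ J) (by positivity) hp
  have hsub : {w | RS (pw w) N s} ⊆ {w : Ed → ℝ | ∀ x ∈ ball n 0, ∀ v ∈ ball n 0,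
        |TT (pw w) x (x + v) - m v| ≤ r} ∪
      {w | ∃ x ∈ ball n 0, ∃ y ∈ ball n 0,
        w ∈ (fun x v => {w | RS (pw w) N s ∧ r < |TT (pw w) x (x + v) - m v|}) x y} := by
    intro w hw
    by_cases hb : ∃ x ∈ ball n 0, ∃ y ∈ ball n 0,
        w ∈ (fun x v => {w | RS (pw w) N s ∧ r < |TT (pw w) x (x + v) - m v|}) x y
    · exact Or.inr hb
    · left
      intro x hx v hv
      by_contra hcon
      rw [not_le] at hcon
      exact hb ⟨x, hx, v, hv, hw, hcon⟩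
  refine (measureReal_mono hsub (measure_ne_top _ _)).trans ((measureReal_union_le _ _).trans ?_)
  exact add_le_add_right hub _

theorem t_R2 (hR1 : S_R1) : S_R2 := by
  classical
  intro hMED b hb0 hb1 hBp
  have hm : ∀ v : ℤ × ℤ, ∃ c : ℝ, 0 ≤ c ∧ c ≤ 3 * (dd 0 v : ℝ) ∧ (132 ≤ dd 0 v →
      nu.real {w | TT (pw w) 0 v < c} ≤ 1 / 2 ∧ nu.real {w | c < TT (pw w) 0 v} ≤ 1 / 2) := by
    intro v
    by_cases hv : 132 ≤ dd 0 v
    · obtain ⟨c, h1, h2, h3, h4⟩ := hMED v hv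
      exact ⟨c, le_trans (by positivity) h1, h2, fun _ => ⟨h3, h4⟩⟩
    · exact ⟨0, le_rfl, by positivity, fun h => absurd h hv⟩
  choose m hm0 hm3 hmed using hm
  refine ⟨m, fun v hv => hmed v hv, fun ζ hζ => ?_⟩
  obtain ⟨K, hK, hA⟩ := expo hb0 hb1 hζ
  obtain ⟨c, hc, hcn⟩ := hBp (ζ / 4) (by positivity)
  refine ⟨c / 2, by positivity, ?_⟩
  have hK0 : (0:ℝ) < K := by exact_mod_cast hK
  obtain ⟨J, hJd⟩ : ∃ J : ℕ → ℕ, J = fun n : ℕ => ⌊(n:ℝ) ^ ((K:ℝ)⁻¹)⌋₊ := ⟨_, rfl⟩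
  have hJn : ∀ n : ℕ, ⌊(n:ℝ) ^ ((K:ℝ)⁻¹)⌋₊ = J n := fun n => by rw [hJd]
  simp only [hJn] at hA
  have tJ : Tendsto J atTop atTop := by
    rw [hJd]
    exact tendsto_nat_floor_atTop.comp
      ((tendsto_rpow_atTop (by positivity)).comp tendsto_natCast_atTop_atTop)
  have hnJ : ∀ n : ℕ, (n:ℝ) ≤ ((J n : ℝ) + 1) ^ K := by
    intro n
    have h1 : (n:ℝ) ^ ((K:ℝ)⁻¹) ≤ (J n : ℝ) + 1 := by
      rw [← hJn n]
      exact (Nat.lt_floor_add_one _).le
    calc (n:ℝ) = ((n:ℝ) ^ ((K:ℝ)⁻¹)) ^ K := by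
          rw [← Real.rpow_natCast, ← Real.rpow_mul (Nat.cast_nonneg n),
            inv_mul_cancel₀ hK0.ne', Real.rpow_one]
      _ ≤ ((J n : ℝ) + 1) ^ K := pow_le_pow_left₀ (by positivity) h1 _
  have hdec := decay hK tJ hnJ
  have tN : Tendsto (fun n => (133 * J n + 3) * n) atTop atTop :=
    tendsto_atTop_mono (fun n => Nat.le_mul_of_pos_left n (by omega)) tendsto_id
  filter_upwards [tN.eventually hcn, tJ.eventually_ge_atTop 132, hA,
    hdec.eventually (eventually_le_nhds (show (0:ℝ) < c / 2 by positivity)),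
    eventually_ge_atTop 1] with n h1 h2 h3 h4 h5
  have hs1 : 1 ≤ ((((133 * J n + 3) * n : ℕ) : ℝ) ^ (b + ζ / 4)) := by
    apply Real.one_le_rpow _ (by positivity)
    have : 1 ≤ (133 * J n + 3) * n := Nat.one_le_iff_ne_zero.2 (by positivity)
    exact_mod_cast this
  have hJ1 : (132:ℝ) ≤ J n := by exact_mod_cast h2
  have hr3 : 3 * (J n : ℝ) ≤ (n:ℝ) ^ (b + ζ) := by
    refine le_trans ?_ h3
    have : 133 * (J n : ℝ) * 1 ≤ 133 * (J n : ℝ) * (((133 * J n + 3) * n : ℕ) : ℝ) ^ (b + ζ / 4) :=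
      mul_le_mul_of_nonneg_left hs1 (by positivity)
    linarith
  have h6 := stepR2 hR1 hm0 hm3 hmed (n := n) h2 (by linarith) h3 hr3
  have h7 := h1.trans h6
  linarith

end Pool.Agent.H40.SY
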