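import Pool.Agent.H30.SY.Stm

/-! # Project SY (helper30), piece SUM (helper40): a chain of translates -/

set_option autoImplicit false

open MeasureTheory ProbabilityTheory Finset Filter
open scoped Topology Pointwise

namespace Pool.Agent.H40.SY

open Q70.Fp Pool.Agent.H30.SY

theorem t_SUM (hREV : S_REV) : S_SUM := by
  intro v s hs
  set a : ℕ → (Ed → ℝ) → ℝ := fun j w => TT (pw w) ((j : ℤ) • v) (((j : ℤ) + 1) • v) with ha
  set E0 : Set (Ed → ℝ) := {w | s < |TT (pw w) 0 v - TT (pw w) 0 (-v)|} with hE0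
  have hE0m : MeasurableSet E0 :=
    measurableSet_lt measurable_const ((measurable_TT 0 v).sub (measurable_TT 0 (-v))).abs
  have hEj : ∀ j : ℕ, nu.real {w | s < |a j w - a (j + 1) w|} = nu.real E0 := by
    intro j
    set c : ℤ × ℤ := ((j : ℤ) + 1) • v with hc
    have hm : Measurable (sh c) := measurable_pi_lambda _ fun e => measurable_pi_apply _
    have e1 := map_measureReal_apply (μ := nu) hm hE0m
    rw [map_sh] at e1
    rw [e1]
    congr 1
    ext w
    have h1 : a (j + 1) w = TT (pw w) (0 + c) (v + c) := by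
      rw [ha, hc, zero_add]
      simp only
      congr 1
      push_cast
      rw [add_smul ((j : ℤ) + 1) 1 v, one_smul, add_comm]
    have h2 : a j w = TT (pw w) (0 + c) (-v + c) := by
      have h3 : -v + c = (j : ℤ) • v := by
        rw [hc, add_smul, one_smul]
        abel
      rw [h3, zero_add, hREV]
    show s < |a j w - a (j + 1) w| ↔ s < |TT (pw (sh c w)) 0 v - TT (pw (sh c w)) 0 (-v)|
    rw [TT_sh, TT_sh, h1, h2, abs_sub_comm]
  have hsub : {w | 133 * s < |TT (pw w) 0 v - TT (pw w) ((133 : ℤ) • v) ((134 : ℤ) • v)|} ⊆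
      ⋃ j ∈ range 133, {w | s < |a j w - a (j + 1) w|} := by
    intro w hw
    have hw' : 133 * s < |TT (pw w) 0 v - TT (pw w) ((133 : ℤ) • v) ((134 : ℤ) • v)| := hw
    by_contra hcon
    simp only [Set.mem_iUnion, not_exists] at hcon
    have h1 : ∀ j ∈ range 133, |a j w - a (j + 1) w| ≤ s := fun j hj => not_lt.1 (hcon j hj)
    have h2 : |a 0 w - a 133 w| ≤ 133 * s := by
      have h3 : ∑ j ∈ range 133, (a j w - a (j + 1) w) = a 0 w - a 133 w :=
        Finset.sum_range_sub' (fun j => a j w) 133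
      rw [← h3]
      calc |∑ j ∈ range 133, (a j w - a (j + 1) w)| ≤ ∑ j ∈ range 133, |a j w - a (j + 1) w| :=
            abs_sum_le_sum_abs _ _
        _ ≤ ∑ j ∈ range 133, s := sum_le_sum h1
        _ = 133 * s := by rw [sum_const, card_range, nsmul_eq_mul]; norm_num
    have h4 : a 0 w = TT (pw w) 0 v := by
      rw [ha]
      simp
    have h5 : a 133 w = TT (pw w) ((133 : ℤ) • v) ((134 : ℤ) • v) := by
      rw [ha]
      norm_num
    rw [h4, h5] at h2
    linarith
  calc nu.real {w | 133 * s < |TT (pw w) 0 v - TT (pw w) ((133 : ℤ) • v) ((134 : ℤ) • v)|}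
      ≤ nu.real (⋃ j ∈ range 133, {w | s < |a j w - a (j + 1) w|}) :=
        measureReal_mono hsub (measure_ne_top nu _)
    _ ≤ ∑ j ∈ range 133, nu.real {w | s < |a j w - a (j + 1) w|} := measureReal_biUnion_finset_le _ _
    _ = 133 * nu.real E0 := by
        rw [sum_congr rfl fun j _ => hEj j, sum_const, card_range, nsmul_eq_mul]
        norm_num

end Pool.Agent.H40.SY
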